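import Pool.Agent.W31.JP.Win

/-!
# Judicious bipartitions: a defect of order `sqrt m`

For every `l ≥ 2000` and every `m` with `l (2 l - 1) - 2 ⌊l / 2000⌋ ≤ m ≤ l (2 l - 1)`, every graph
with `m` edges has a bipartition of its vertices in which each part spans fewer than
`m / 4 + sqrt (m / 32) - sqrt m / 20000` edges.
-/

set_option autoImplicit false

namespace Pool.Agent.Results.MP_0efbd6_co.SqrtDefect

theorem result (l m : ℕ) (hl : 2000 ≤ l) (hm1 : m ≤ l * (2 * l - 1))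
    (hm2 : l * (2 * l - 1) ≤ m + 2 * (l / 2000)) (n : ℕ) (G : SimpleGraph (Fin n))
    [DecidableRel G.Adj]
    (hm : ((Finset.univ : Finset (Fin n × Fin n)).filter
            (fun p => p.1 < p.2 ∧ G.Adj p.1 p.2)).card = m) :
    ∃ S : Finset (Fin n),
      (((max ((Finset.univ : Finset (Fin n × Fin n)).filter
          (fun p => p.1 < p.2 ∧ G.Adj p.1 p.2 ∧ p.1 ∈ S ∧ p.2 ∈ S)).card
        ((Finset.univ : Finset (Fin n × Fin n)).filter
          (fun p => p.1 < p.2 ∧ G.Adj p.1 p.2 ∧ p.1 ∉ S ∧ p.2 ∉ S)).card : ℕ) : ℝ)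
      < (m : ℝ) / 4 + Real.sqrt ((m : ℝ) / 32) - Real.sqrt (m : ℝ) / 20000) :=
  Pool.Agent.W31.JP.main_window hl hm1 hm2 n G hm

end Pool.Agent.Results.MP_0efbd6_co.SqrtDefect
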